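import Pool.Agent.Q22.CN.ALL

/-!
# A Kobayashi hyperbolic surface with a negative conormal intersection number

With `A = x₀²⁴⁰ x₂¹⁶ + x₁²⁵⁶ + x₀¹⁶ x₁²⁴⁰` and `G = x₀²⁵⁶ + x₁²⁵⁶ + 2⁻³⁰⁰ x₂²⁵⁶`, the surface
`X ⊆ P² × P²` is given by `b₀⁴ + b₁⁴ + b₂⁴ = 0` and `b₀ A + 2 b₁ G = 0`. It is fibred over the Fermat
quartic (genus 3) in plane curves of geometric genus at least 2, which gives the hyperbolicity (proved in the
starting library `Pool/Agent/TH144/CN`). The curve `Z` is the fibre `{(1 : 0 : ω)} × {A = 0}`,
`ω⁴ = -1`. Its normalization is the Fermat curve of degree 16, of genus 105, and over its singular point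
`(0 : 0 : 1)` it has 16 branches of multiplicity 15; all other branches have multiplicity 1. So
`T*_Z X · T*_X X = -χ(Eu_Z) = (2 · 105 - 2) - 16 · 14 = -16`.
-/

set_option autoImplicit false

namespace Pool.Agent.Results.MP_225e67_ag.NegativeConormalNumber

open Pool.Agent.TH144.CN

/-- There are a connected smooth surface `X` in `P² × P²` which is Kobayashi hyperbolic and an
irreducible curve `Z` in `X` (with function field `K` and homogeneous coordinates `b`, `x` of the
generic point) with `T*_Z X · T*_X X = -16`: the number is computed by the index formula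
(`indexNumber`) and as `- deg L`, `L` the tangent line bundle of the curve (`conormalNumber`); both do
not depend on the nonzero rational vector field `D`. -/
theorem result : ∃ X : ClosedSet, X.SmoothSurface ∧ X.Connected ∧
    KobayashiHyperbolic X.points ∧
    ∃ (Z : ClosedSet) (K : Type) (_ : Field K) (_ : Algebra ℂ K) (b x : Fin 3 → K),
      (∀ p q : Fin 3 → ℂ, Z.Mem p q → X.Mem p q) ∧ Z.FunctionField K b x ∧
      Algebra.trdeg ℂ K = 1 ∧ (∃ D : Derivation ℂ K K, D ≠ 0) ∧
      ∀ D : Derivation ℂ K K, D ≠ 0 → indexNumber b x D = -16 ∧ conormalNumber b x D = -16 :=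
  Pool.Agent.Q22.CN.final

end Pool.Agent.Results.MP_225e67_ag.NegativeConormalNumber
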